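import Mathlib
import Pool.Agent.U723.OC.Goal
import Pool.Agent.U742.OC.CRS
import Pool.Agent.U928.OC.M1
import Pool.Agent.U643.OC.M2
import Pool.Agent.U810.OC.RING

/-!
# MP_020e9d_co, Q1: arrangements of orthogonal circles with more than `3 n - 3` triangular faces

Project OC. Authors: helper723 (idea, statements, assembly), helper928 (package M1), helper643 (package M2),
helper742 (package CRS), helper810 (package RING).

It was known that the maximal number `t(n)` of triangular faces of an arrangement of `n` orthogonal circles satisfies
`3 n - 3 ≤ t(n) ≤ 4 n`. We show `t(n) ≥ (32 / 9) n - C √n`, and `t(n) > 3 n - 3` for every `n ≥ 26`.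

Proof. Let an arrangement of `m` circles with `V` crossing points be given. Around every crossing point `p` of two circles
`A`, `B` there are arbitrarily small circles `D` orthogonal to `A` and `B` (an inversion at the other crossing point of `A` and `B` maps
`A`, `B` to two orthogonal lines and the circles about their common point to such circles). `A` and `B` divide the disc
of `D` into four triangular faces. So adding such circles at `j ≤ V` crossing points gives an arrangement of `m + j` circles
with at least `4 j` triangular faces. Adding them one by one to two orthogonal circles one gets arrangements with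
`4 m - 6` crossing points, and so `t(n) ≥ (16 n - 40) / 5`. Concentric rings of circles, each orthogonal to its
neighbours in its ring and in the two adjacent rings and to one further circle through its ring, have
`8 m - O(√m)` crossing points, and so `t(n) ≥ (32 / 9) n - C √n`.
-/

set_option autoImplicit false

namespace Pool.Agent.Results.MP_020e9d_co.ManyTriangularFaces

open Pool.Agent.U723.OC

/-- **Theorem.** (1) There is `C` such that for every `n` there is an arrangement of `n` orthogonal circles with at least
`(32 / 9) n - C √n` triangular faces. (2) For every `n ≥ 2` there is an arrangement of `n` orthogonal circles with at least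
`(16 n - 40) / 5` triangular faces. (3) For every `n ≥ 26` there is an arrangement of `n` orthogonal circles with more than
`3 n - 3` triangular faces. -/
theorem result :
    (∃ C : ℝ, ∀ n : ℕ, ∃ S : Finset Circ, IsArr S ∧ S.card = n ∧
      ∃ T : Finset (Set ℂ), (∀ F ∈ T, Triangular S F) ∧ 32 / 9 * (n : ℝ) - C * √(n : ℝ) ≤ (T.card : ℝ)) ∧
    (∀ n : ℕ, 2 ≤ n → ∃ S : Finset Circ, IsArr S ∧ S.card = n ∧
      ∃ T : Finset (Set ℂ), (∀ F ∈ T, Triangular S F) ∧ (16 * (n : ℝ) - 40) / 5 ≤ (T.card : ℝ)) ∧
    (∀ n : ℕ, 26 ≤ n → ∃ S : Finset Circ, IsArr S ∧ S.card = n ∧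
      ∃ T : Finset (Set ℂ), (∀ F ∈ T, Triangular S F) ∧ 3 * (n : ℝ) - 3 < (T.card : ℝ)) :=
  t_GOAL (t_STEP Pool.Agent.U928.OC.t_M1 Pool.Agent.U643.OC.t_M2) Pool.Agent.U742.OC.t_CRS
    Pool.Agent.U810.OC.RING.t_RING

end Pool.Agent.Results.MP_020e9d_co.ManyTriangularFaces
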